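import Pool.Agent.Helper22.VCM.C2b
import Pool.Agent.Helper60.VCM.C2a

/-!
# Coding by cells: preparations
-/

set_option autoImplicit false
set_option linter.unusedSectionVars false
set_option linter.unusedVariables false

namespace Pool.Agent.Helper97.LO

open Set Pool.Agent.Helper5.DU Pool.Agent.Helper6.Str Pool.Agent.Helper79.VC
  Pool.Agent.Helper97.VC Pool.Agent.Helper97.MD

variable {L : FirstOrder.Language.{0, 0}} {M N P : Type}

namespace CCAux

/-- dependent choices -/
theorem exists_seq {α : Type*} (P : α → Prop) (R : α → α → Prop) (h0 : ∃ x, P x)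
    (h : ∀ x, P x → ∃ y, P y ∧ R x y) :
    ∃ s : ℕ → α, (∀ n, P (s n)) ∧ ∀ n, R (s n) (s (n + 1)) := by
  obtain ⟨x0, hx0⟩ := h0
  choose! g hg1 hg2 using h
  let s : ℕ → α := fun n => n.rec x0 fun _ x => g x
  have hs : ∀ n, P (s n) := by
    intro n
    induction n with
    | zero => exact hx0
    | succ n ih => exact hg1 (s n) ih
  exact ⟨s, hs, fun n => hg2 (s n) (hs n)⟩

/-- having a Scott level below `l` -/
def SLlt (S : L.Structure M) (X : Set M) (l : Ordinal.{0}) : Prop := ∃ α < l, SL S X α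

theorem SLlt.mono {S : L.Structure M} {X : Set M} {l l' : Ordinal.{0}} (h : SLlt S X l)
    (hl : l ≤ l') : SLlt S X l' := by
  obtain ⟨α, hα, h⟩ := h
  exact ⟨α, hα.trans_le hl, h⟩

/-- `H` is respected by the equivalence of level `η`, in the structures equivalent to `S` -/
def Hull (S : L.Structure M) (η : Ordinal.{0})
    (H : (N : Type) → L.Structure N → N → N → Set N) : Prop :=
  ∀ (N N' : Type) (T : L.Structure N) (T' : L.Structure N') (x y z : N) (x' y' z' : N'),
      BFR T S univ univ η ∅ → BFR T' S univ univ η ∅ →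
      BFR T T' univ univ η {(x, x'), (y, y'), (z, z')} → z ∈ H N T x y → z' ∈ H N' T' x' y'

theorem bfr_empty_refl (S : L.Structure M) (U : Set M) (γ : Ordinal.{0}) : BFR S S U U γ ∅ :=
  BFR.refl S U γ fun a ha => absurd ha (notMem_empty a)

theorem clo_left {S : L.Structure M} {X : Set M} {γ : Ordinal.{0}} (hX : Clo S univ γ X)
    {F : Set M} (hF : F.Finite) (hFX : F ⊆ X) : BFR S S univ X γ (dg F) := by
  have h := hX.bfr hF (by rw [inter_univ]; exact hFX)
  rwa [inter_univ] at h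

theorem clo_right {S : L.Structure M} {X : Set M} {γ : Ordinal.{0}} (hX : Clo S univ γ X)
    {F : Set M} (hF : F.Finite) (hFX : F ⊆ X) : BFR S S X univ γ (dg F) := by
  refine (clo_left hX hF hFX).symm ?_
  rintro _ ⟨a, ha, rfl⟩
  exact ⟨a, ha, rfl⟩

/-- hulls in closed sets -/
theorem hull_restr {S : L.Structure M} {η : Ordinal.{0}}
    {H : (N : Type) → L.Structure N → N → N → Set N} (hH : Hull S η H) {X : Set M}
    {γ : Ordinal.{0}} (hX : Clo S univ (η + γ) X) {u v : M} (hu : u ∈ X) (hv : v ∈ X) :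
    BFR S S (H M S u v) (H M S u v ∩ X) γ (dg {u, v}) := by
  have hS : BFR S S univ univ η ∅ := bfr_empty_refl S univ η
  have h1 : BFR S S univ X (η + γ) (dg {u, v}) := clo_left hX (by simp) (by
    rintro a (rfl | rfl)
    · exact hu
    · exact hv)
  refine BFR.restr (subset_univ _) inter_subset_right η γ ?_ h1
  intro x _ y hy hxy
  have h2 : BFR S S X univ η (dg {u, v, y}) :=
    clo_right (hX.mono le_self_add) (by simp) (by
      rintro a (rfl | rfl | rfl)
      · exact hu
      · exact hv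
      · exact hy)
  have h3 : BFR S S univ univ η {(u, u), (v, v), (x, y)} := by
    refine hxy.trans h2 ?_
    rintro a (rfl | rfl | rfl)
    · exact ⟨u, Or.inr ⟨u, by simp, rfl⟩, ⟨u, by simp, rfl⟩⟩
    · exact ⟨v, Or.inr ⟨v, by simp, rfl⟩, ⟨v, by simp, rfl⟩⟩
    · exact ⟨y, Or.inl rfl, ⟨y, by simp, rfl⟩⟩
  have h4 : BFR S S univ univ η {(u, u), (v, v), (y, x)} := by
    refine h3.symm ?_
    rintro a (rfl | rfl | rfl)
    · exact Or.inl rfl
    · exact Or.inr (Or.inl rfl)
    · exact Or.inr (Or.inr rfl)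
  constructor
  · intro hx
    exact ⟨hH M M S S u v x u v y hS hS h3 hx, hy⟩
  · rintro ⟨hy', -⟩
    exact hH M M S S u v y u v x hS hS h4 hy'

section

variable [∀ n, IsEmpty (L.Functions n)] [∀ n, Countable (L.Relations n)]
  {K : Set (L.Structure ℕ)} {δ : Ordinal.{0}} {S : L.Structure M}

/-- In a sufficiently closed set, the hulls which are not tame are those without small Scott
level. -/
theorem rank_iff (hS : VSt K δ S) {η : Ordinal.{0}} (hη : η < om1)
    {H : (N : Type) → L.Structure N → N → N → Set N} (hH : Hull S η H)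
    {NT : M → M → Prop} {ρ₀ : Ordinal.{0}} (hρ₀ : ρ₀ < om1)
    (n1 : ∀ x y, NT x y → ¬ TameX S (H M S x y)) (n2 : ∀ x y, ¬ NT x y → SL S (H M S x y) ρ₀)
    {X : Set M} {l : Ordinal.{0}} (hl1 : l < om1) (hl : ∀ a < l, ∀ b < l, a + b < l)
    (hηl : η < l) (hωl : Ordinal.omega0 < l) (hρl : ρ₀ < l) (hX : ∀ γ < l, Clo S univ γ X)
    {u v : M} (hu : u ∈ X) (hv : v ∈ X) : NT u v ↔ ¬ SLlt S (H M S u v ∩ X) l := by
  classical
  constructor
  · rintro hNT ⟨ρ, hρ, hSL⟩
    have hr : ρ + Ordinal.omega0 < l := hl _ hρ _ hωl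
    have h1 := hull_restr hH (hX _ (hl _ hηl _ hr)) hu hv
    have h2 : BFR S S (H M S u v ∩ X) (H M S u v) (ρ + Ordinal.omega0) ∅ :=
      h1.symm fun a ha => absurd ha (notMem_empty a)
    have h3 : SL S (H M S u v) ρ := hSL.congr (hρ.trans hl1) h2
    have h4 : Small S (H M S u v) := by
      refine hS.small_sub (F := {u, v}) hη ?_
      intro c c' hcc
      have hSS : BFR S S univ univ η ∅ := bfr_empty_refl S univ η
      have h5 : BFR S S univ univ η {(u, u), (v, v), (c, c')} := by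
        refine BFR.anti ?_ hcc
        rintro a (rfl | rfl | rfl)
        · exact Or.inr ⟨u, by simp, rfl⟩
        · exact Or.inr ⟨v, by simp, rfl⟩
        · exact Or.inl rfl
      have h6 : BFR S S univ univ η {(u, u), (v, v), (c', c)} := by
        refine h5.symm ?_
        rintro a (rfl | rfl | rfl)
        · exact Or.inl rfl
        · exact Or.inr (Or.inl rfl)
        · exact Or.inr (Or.inr rfl)
      exact ⟨fun h => hH M M S S u v c u v c' hSS hSS h5 h,
        fun h => hH M M S S u v c' u v c hSS hSS h6 h⟩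
    exact n1 u v hNT (SL.tame h4 (hρ.trans hl1) h3)
  · intro h
    by_contra hNT
    apply h
    have h1 := n2 u v hNT
    have hr : ρ₀ + Ordinal.omega0 < l := hl _ hρl _ hωl
    have h2 := hull_restr hH (hX _ (hl _ hηl _ hr)) hu hv
    exact ⟨ρ₀, hρl, h1.congr hρ₀ (BFR.anti (empty_subset _) h2)⟩

/-- the substructure on a closed set is equivalent to the structure -/
theorem pl_equiv {X : Set M} {γ : Ordinal.{0}} (hX : Clo S univ γ X) {F : Set (X × M)}
    (hF : F.Finite) (hF' : ∀ a ∈ F, a.2 = a.1.1) :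
    BFR (pl S (Subtype.val : X → M)) S univ univ γ F := by
  have h1 : BFR (pl S (Subtype.val : X → M)) S univ (range (Subtype.val : X → M)) γ F :=
    BFR_pl Subtype.val_injective γ hF'
  rw [Subtype.range_val] at h1
  have h2 : BFR S S X univ γ (dg (Prod.snd '' F)) := by
    refine clo_right hX (hF.image _) ?_
    rintro _ ⟨a, ha, rfl⟩
    rw [hF' a ha]
    exact a.1.2
  refine h1.trans h2 ?_
  intro a ha
  exact ⟨a.2, ha, ⟨a.2, ⟨a, ha, rfl⟩, rfl⟩⟩

theorem pl_equiv_empty {X : Set M} {γ : Ordinal.{0}} (hX : Clo S univ γ X) :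
    BFR (pl S (Subtype.val : X → M)) S univ univ γ ∅ :=
  pl_equiv hX finite_empty fun a ha => absurd ha (notMem_empty a)

/-- hulls in the substructure on a closed set -/
theorem pl_hull {η : Ordinal.{0}} {H : (N : Type) → L.Structure N → N → N → Set N}
    (hH : Hull S η H) {X : Set M} (hX : Clo S univ η X) (u v : X) :
    Subtype.val '' (H X (pl S (Subtype.val : X → M)) u v) = H M S u.1 v.1 ∩ X := by
  have hSS : BFR S S univ univ η ∅ := bfr_empty_refl S univ η
  have hT := pl_equiv_empty hX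
  ext z
  constructor
  · rintro ⟨z, hz, rfl⟩
    refine ⟨?_, z.2⟩
    refine hH _ _ _ _ u v z u.1 v.1 z.1 hT hSS ?_ hz
    refine pl_equiv hX (by simp) ?_
    rintro a (rfl | rfl | rfl) <;> rfl
  · rintro ⟨hz, hzX⟩
    refine ⟨⟨z, hzX⟩, ?_, rfl⟩
    refine hH _ _ _ _ u.1 v.1 z u v ⟨z, hzX⟩ hSS hT ?_ hz
    have h1 : BFR (pl S (Subtype.val : X → M)) S univ univ η
        {(u, u.1), (v, v.1), ((⟨z, hzX⟩ : X), z)} := by
      refine pl_equiv hX (by simp) ?_
      rintro a (rfl | rfl | rfl) <;> rfl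
    refine h1.symm ?_
    rintro a (rfl | rfl | rfl)
    · exact Or.inl rfl
    · exact Or.inr (Or.inl rfl)
    · exact Or.inr (Or.inr rfl)

/-- the property which codes the bit `k` -/
def Dk (H : (N : Type) → L.Structure N → N → N → Set N) (lam : ℕ → Ordinal.{0}) (k : ℕ)
    {N : Type} (T : L.Structure N) : Prop :=
  ∃ u v : N, ¬ SLlt T (H N T u v) (lam 0) ∧ ∀ u' ∈ H N T u v, ∀ v' ∈ H N T u v,
    ¬ SLlt T (H N T u' v') (lam 0) →
      (¬ SLlt T (H N T u' v') (lam (k + 1)) ∧ SLlt T (H N T u' v') (lam (k + 2)))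

/-- the ranks of hulls are respected -/
theorem sllt_congr {η : Ordinal.{0}} {H : (N : Type) → L.Structure N → N → N → Set N}
    (hH : Hull S η H) {l : Ordinal.{0}} (hl1 : l < om1) (hω : ∀ α < l, α + Ordinal.omega0 < l)
    {N N' : Type} {T : L.Structure N} {T' : L.Structure N'} (hT : BFR T S univ univ η ∅)
    (hT' : BFR T' S univ univ η ∅) {u v : N} {u' v' : N'}
    (h : BFR T T' univ univ (η + l) {(u, u'), (v, v')}) :
    SLlt T (H N T u v) l ↔ SLlt T' (H N' T' u' v') l := by
  refine SL.lt_congr hl1.le hω ?_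
  refine BFR.anti (empty_subset _) (BFR.restr (U := univ) (V := univ) (subset_univ _)
    (subset_univ _) η l (p := {(u, u'), (v, v')}) ?_ h)
  intro x _ y _ hxy
  have h1 : BFR T T' univ univ η {(u, u'), (v, v'), (x, y)} := by
    refine BFR.anti ?_ hxy
    rintro a (rfl | rfl | rfl)
    · exact Or.inr (Or.inl rfl)
    · exact Or.inr (Or.inr rfl)
    · exact Or.inl rfl
  have h2 : BFR T' T univ univ η {(u', u), (v', v), (y, x)} := by
    refine h1.symm ?_
    rintro a (rfl | rfl | rfl)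
    · exact Or.inl rfl
    · exact Or.inr (Or.inl rfl)
    · exact Or.inr (Or.inr rfl)
  exact ⟨fun hx => hH N N' T T' u v x u' v' y hT hT' h1 hx,
    fun hy => hH N' N T' T u' v' y u v x hT' hT h2 hy⟩

theorem lt_add_one' (α : Ordinal.{0}) : α < α + 1 := Order.lt_add_one_iff.mpr le_rfl

/-- the coding property is respected -/
theorem dk_congr {η : Ordinal.{0}} {H : (N : Type) → L.Structure N → N → N → Set N}
    (hH : Hull S η H) {lam : ℕ → Ordinal.{0}} (hl1 : ∀ n, lam n < om1)
    (hω : ∀ n, ∀ α < lam n, α + Ordinal.omega0 < lam n) {L' : Ordinal.{0}}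
    (hL : ∀ n, lam n ≤ L') {N N' : Type} {T : L.Structure N} {T' : L.Structure N'}
    (hT : BFR T S univ univ η ∅) (hT' : BFR T' S univ univ η ∅)
    (h : BFR T T' univ univ (η + L' + 1 + 1 + 1 + 1) ∅) (k : ℕ) (hk : Dk H lam k T) :
    Dk H lam k T' := by
  obtain ⟨u, v, huv, hk⟩ := hk
  obtain ⟨u₁, -, h1⟩ := h.forth (lt_add_one' _) (mem_univ u)
  obtain ⟨v₁, -, h2⟩ := h1.forth (lt_add_one' _) (mem_univ v)
  have hle : ∀ n, η + lam n ≤ η + L' := fun n => by gcongr; exact hL n
  have hle1 : η + L' ≤ η + L' + 1 := (lt_add_one' _).le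
  have hle2 : η + L' + 1 ≤ η + L' + 1 + 1 := (lt_add_one' _).le
  have hηL : η ≤ η + L' := le_self_add
  have h3 : BFR T T' univ univ (η + L' + 1 + 1) {(u, u₁), (v, v₁)} := by
    refine BFR.anti ?_ h2
    rintro a (rfl | rfl)
    · exact Or.inr (Or.inl rfl)
    · exact Or.inl rfl
  refine ⟨u₁, v₁, ?_, ?_⟩
  · rw [← sllt_congr hH (hl1 0) (hω 0) hT hT'
      (h3.mono ((hle 0).trans (hle1.trans hle2)))]
    exact huv
  · intro u₁' hu₁' v₁' hv₁' hn
    obtain ⟨u', -, h4⟩ := h3.back (lt_add_one' _) (mem_univ u₁')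
    obtain ⟨v', -, h5⟩ := h4.back (lt_add_one' _) (mem_univ v₁')
    have hu' : u' ∈ H N T u v := by
      refine hH N' N T' T u₁ v₁ u₁' u v u' hT' hT ?_ hu₁'
      refine (h5.mono hηL).symm ?_
      rintro a (rfl | rfl | rfl)
      · exact Or.inr (Or.inr (Or.inl rfl))
      · exact Or.inr (Or.inr (Or.inr rfl))
      · exact Or.inr (Or.inl rfl)
    have hv' : v' ∈ H N T u v := by
      refine hH N' N T' T u₁ v₁ v₁' u v v' hT' hT ?_ hv₁'
      refine (h5.mono hηL).symm ?_
      rintro a (rfl | rfl | rfl)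
      · exact Or.inr (Or.inr (Or.inl rfl))
      · exact Or.inr (Or.inr (Or.inr rfl))
      · exact Or.inl rfl
    have h6 : BFR T T' univ univ (η + L') {(u', u₁'), (v', v₁')} := by
      refine BFR.anti ?_ h5
      rintro a (rfl | rfl)
      · exact Or.inr (Or.inl rfl)
      · exact Or.inl rfl
    have h7 : ∀ n, SLlt T (H N T u' v') (lam n) ↔ SLlt T' (H N' T' u₁' v₁') (lam n) :=
      fun n => sllt_congr hH (hl1 n) (hω n) hT hT' (h6.mono (hle n))
    rw [← h7 0] at hn
    rw [← h7 (k + 1), ← h7 (k + 2)]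
    exact hk u' hu' v' hv' hn

end

end CCAux

end Pool.Agent.Helper97.LO
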