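import Pool.Agent.Helper4.VCM.CCAux

/-!
# Coding by cells
-/

set_option autoImplicit false
set_option linter.unusedSectionVars false
set_option linter.unusedVariables false

namespace Pool.Agent.Helper97.LO

open Set Pool.Agent.Helper5.DU Pool.Agent.Helper6.Str Pool.Agent.Helper79.VC
  Pool.Agent.Helper97.VC Pool.Agent.Helper97.MD

variable {L : FirstOrder.Language.{0, 0}} {M N P : Type}

section

variable [∀ n, IsEmpty (L.Functions n)] [∀ n, Countable (L.Relations n)]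
  {K : Set (L.Structure ℕ)} {δ : Ordinal.{0}} {S : L.Structure M}

open CCAux

/-- **Coding by cells.** `H N T x y` is the hull of `x` and `y` in the structure `T` on `N` (an
interval or a node); `NT x y` holds when the hull of `x`, `y` is not tame. If there are infinitely
many disjoint cells `W n` such that every hull which is not tame contains (in sufficiently closed
subsets of `M`) a hull which is not tame and lies in one cell or outside all cells, then there is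
a contradiction. -/
theorem cell_code (hS : VSt K δ S) (H : (N : Type) → L.Structure N → N → N → Set N)
    {η : Ordinal.{0}} (hη : η < om1)
    (h1 : ∀ (N N' : Type) (T : L.Structure N) (T' : L.Structure N') (x y z : N) (x' y' z' : N'),
      BFR T S univ univ η ∅ → BFR T' S univ univ η ∅ →
      BFR T T' univ univ η {(x, x'), (y, y'), (z, z')} → z ∈ H N T x y → z' ∈ H N' T' x' y')
    (hmem : ∀ x y, x ∈ H M S x y ∧ y ∈ H M S x y)
    (NT : M → M → Prop) {ρ₀ : Ordinal.{0}} (hρ₀ : ρ₀ < om1)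
    (n1 : ∀ x y, NT x y → ¬ TameX S (H M S x y)) (n2 : ∀ x y, ¬ NT x y → SL S (H M S x y) ρ₀)
    (W : ℕ → Set M) (hW : Pairwise fun m n => Disjoint (W m) (W n)) (D : ℕ → Finset M)
    (a b : ℕ → M) (ha : ∀ n, a n ∈ W n) (hb : ∀ n, b n ∈ W n) (hab : ∀ n, NT (a n) (b n))
    (w1 : ∀ n z z', BFR S S univ univ η (insert (z, z') (dg (D n : Set M))) →
      (z ∈ W n ↔ z' ∈ W n))
    (w2 : ∀ n, ∀ u ∈ W n, ∀ v ∈ W n, H M S u v ⊆ W n)
    (w3 : ∀ (n : ℕ) (γ : Ordinal.{0}) (p : Set (M × M)) (G : Set M),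
      (∀ a ∈ p, a.1 ∈ W n ∧ a.2 ∈ W n) → (∀ g ∈ G, g ∉ W n) → BFR S S (W n) (W n) γ p →
      BFR S S univ univ γ (p ∪ dg G))
    (w4 : ∀ (N₀ : Finset ℕ) (γ : Ordinal.{0}) (c d : M) (F₀ F₁ : Set M), F₀.Finite → F₁.Finite →
      (∀ n ∈ N₀, c ∉ W n ∧ d ∉ W n ∧ ∀ x ∈ F₀, x ∉ W n) → (∀ x ∈ F₁, ∃ n ∈ N₀, x ∈ W n) →
      BFR S S univ univ (η + γ) (insert (c, d) (dg (F₀ ∪ ⋃ n ∈ N₀, (D n : Set M)))) →
      BFR S S univ univ γ (insert (c, d) (dg (F₀ ∪ F₁))))
    (w5 : ∀ X : Set M, (∀ γ ≤ η, Clo S univ γ X) → (∀ n, (D n : Set M) ⊆ X) →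
      (∀ n, a n ∈ X ∧ b n ∈ X) → ∀ u ∈ X, ∀ v ∈ X, NT u v → ∃ u' ∈ X ∩ H M S u v,
        ∃ v' ∈ X ∩ H M S u v, NT u' v' ∧
          ((∃ n, u' ∈ W n ∧ v' ∈ W n) ∨ ∀ n, Disjoint (H M S u' v') (W n))) : False := by
  classical
  have hH : Hull S η H := h1
  -- the bound
  let κ₀ : Ordinal.{0} := δ + η + ρ₀ + Ordinal.omega0
  have hκ1 : κ₀ < om1 := add_lt_om1 (add_lt_om1 (add_lt_om1 hS.lt hη) hρ₀) omega_lt_om1
  have hκδ : δ ≤ κ₀ := (le_self_add.trans le_self_add).trans le_self_add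
  have hκη : η ≤ κ₀ := (le_add_self.trans le_self_add).trans le_self_add
  have hκρ : ρ₀ ≤ κ₀ := le_add_self.trans le_self_add
  have hκω : Ordinal.omega0 ≤ κ₀ := le_add_self
  -- witnesses
  obtain ⟨fu, hfu1, hfu2, hfu3⟩ := hS.small.exists_wit
  have hWs : ∀ n, Small S (W n) := fun n => hS.small_sub (D n) hη (w1 n)
  have hWw := fun n => (hWs n).exists_wit
  choose fW hfW1 hfW2 hfW3 using hWw
  -- the property of the pairs
  let Pp : Set M × Ordinal.{0} → Prop := fun q => q.1.Countable ∧ (∀ k, (D k : Set M) ⊆ q.1) ∧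
    (∀ k, a k ∈ q.1 ∧ b k ∈ q.1) ∧ κ₀ < q.2 ∧ q.2 < om1 ∧ (∀ x < q.2, ∀ y < q.2, x + y < q.2) ∧
    (∀ γ < q.2, Clo S univ γ q.1) ∧ (∀ γ < q.2, ∀ k, Clo S (W k) γ q.1)
  let Rr : Set M × Ordinal.{0} → Set M × Ordinal.{0} → Prop := fun q q' => q.1 ⊆ q'.1 ∧
    q.2 < q'.2 ∧ ∀ u ∈ q.1, ∀ v ∈ q.1, SLlt S (H M S u v ∩ q.1) q'.2
  -- one step
  have hstep : ∀ (A₀ : Set M) (μ : Ordinal.{0}), A₀.Countable → (∀ k, (D k : Set M) ⊆ A₀) →
      (∀ k, a k ∈ A₀ ∧ b k ∈ A₀) → κ₀ ≤ μ → μ < om1 → ∃ q, Pp q ∧ A₀ ⊆ q.1 ∧ μ < q.2 := by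
    intro A₀ μ hA₀ hD hab' hμ hμ1
    obtain ⟨A, lam, hA, hA₀A, hμl, hl1, hl, hcl⟩ := exists_pair
      (fun F γ => fu F γ ∪ ⋃ n, fW n F γ) (fun F γ _ => (hfu1 F γ).union
        (countable_iUnion fun n => hfW1 n F γ)) (fun _ _ => 0)
      (fun _ _ _ => Ordinal.omega_pos 1) hA₀ hμ1
    refine ⟨(A, lam), ⟨hA, fun k => (hD k).trans hA₀A, fun k => ⟨hA₀A (hab' k).1,
      hA₀A (hab' k).2⟩, hμ.trans_lt hμl, hl1, hl, ?_, ?_⟩, hA₀A, hμl⟩
    · intro γ hγ
      refine hfu3 A γ (hγ.trans hl1) ?_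
      intro F hF
      exact subset_union_left.trans (hcl F (hF.trans inter_subset_left) γ hγ).1
    · intro γ hγ k
      refine hfW3 k A γ (hγ.trans hl1) ?_
      intro F hF
      exact ((subset_iUnion (fun n => fW n F γ) k).trans subset_union_right).trans
        (hcl F (hF.trans inter_subset_left) γ hγ).1
  have hbase : ∃ q, Pp q := by
    obtain ⟨q, hq, -, -⟩ := hstep ((⋃ k, (D k : Set M)) ∪ (range a ∪ range b)) κ₀
      ((countable_iUnion fun k => (D k).countable_toSet).union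
        ((countable_range a).union (countable_range b)))
      (fun k => (subset_iUnion (fun k => (D k : Set M)) k).trans subset_union_left)
      (fun k => ⟨Or.inr (Or.inl ⟨k, rfl⟩), Or.inr (Or.inr ⟨k, rfl⟩)⟩) le_rfl hκ1
    exact ⟨q, hq⟩
  have hnext : ∀ q, Pp q → ∃ q', Pp q' ∧ Rr q q' := by
    rintro ⟨B, l⟩ ⟨hB, hD, hab', hκl, hl1, hl, hc1, hc2⟩
    have hex : ∀ uv : (B ×ˢ B : Set (M × M)), ∃ α < om1, SL S (H M S uv.1.1 uv.1.2 ∩ B) α :=
      fun uv => exists_SL_of_countable (hB.mono inter_subset_right)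
    choose g hg1 hg2 using hex
    have hct : Countable (B ×ˢ B : Set (M × M)) := (hB.prod hB).to_subtype
    obtain ⟨β, hβ1, hβ2⟩ := exists_bound hg1
    obtain ⟨q', hq', hBq, hlq⟩ := hstep B (max l β) hB hD hab' (hκl.le.trans (le_max_left _ _))
      (max_lt hl1 hβ1)
    refine ⟨q', hq', hBq, (le_max_left _ _).trans_lt hlq, ?_⟩
    intro u hu v hv
    exact ⟨g ⟨(u, v), hu, hv⟩, ((hβ2 _).trans (le_max_right _ _)).trans_lt hlq,
      hg2 ⟨(u, v), hu, hv⟩⟩
  obtain ⟨s, hs, hs'⟩ := exists_seq Pp Rr hbase hnext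
  let B : ℕ → Set M := fun n => (s n).1
  let lam : ℕ → Ordinal.{0} := fun n => (s n).2
  have hBc : ∀ n, (B n).Countable := fun n => (hs n).1
  have hBD : ∀ n k, (D k : Set M) ⊆ B n := fun n => (hs n).2.1
  have hBab : ∀ n k, a k ∈ B n ∧ b k ∈ B n := fun n => (hs n).2.2.1
  have hκl : ∀ n, κ₀ < lam n := fun n => (hs n).2.2.2.1
  have hl1 : ∀ n, lam n < om1 := fun n => (hs n).2.2.2.2.1
  have hladd : ∀ n, ∀ x < lam n, ∀ y < lam n, x + y < lam n := fun n => (hs n).2.2.2.2.2.1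
  have hBclo : ∀ n, ∀ γ < lam n, Clo S univ γ (B n) := fun n => (hs n).2.2.2.2.2.2.1
  have hBW : ∀ n, ∀ γ < lam n, ∀ k, Clo S (W k) γ (B n) := fun n => (hs n).2.2.2.2.2.2.2
  have hBmono : Monotone B := monotone_nat_of_le_succ fun n => (hs' n).1
  have hlmono : StrictMono lam := strictMono_nat_of_lt_succ fun n => (hs' n).2.1
  have hrk : ∀ n, ∀ u ∈ B n, ∀ v ∈ B n, SLlt S (H M S u v ∩ B n) (lam (n + 1)) :=
    fun n => (hs' n).2.2
  have hηl : ∀ n, η < lam n := fun n => hκη.trans_lt (hκl n)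
  have hωl : ∀ n, Ordinal.omega0 < lam n := fun n => hκω.trans_lt (hκl n)
  have hρl : ∀ n, ρ₀ < lam n := fun n => hκρ.trans_lt (hκl n)
  have hδl : ∀ n, δ < lam n := fun n => hκδ.trans_lt (hκl n)
  -- elements of different cells
  have hdisj : ∀ {m n : ℕ} {z : M}, z ∈ W m → z ∈ W n → m = n := by
    intro m n z hm hn
    by_contra hne
    exact (Set.disjoint_left.mp (hW hne)) hm hn
  -- ranks in B n
  have hrB : ∀ n, ∀ u ∈ B n, ∀ v ∈ B n, (NT u v ↔ ¬ SLlt S (H M S u v ∩ B n) (lam n)) :=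
    fun n u hu v hv => rank_iff hS hη hH hρ₀ n1 n2 (hl1 n) (hladd n) (hηl n) (hωl n) (hρl n)
      (hBclo n) hu hv
  -- the coding sets
  let sf : (ℕ → Bool) → ℕ → ℕ := fun f n => if f n then n + 1 else 0
  let X : (ℕ → Bool) → Set M := fun f =>
    {z | z ∈ B 0 ∧ ∀ n, z ∉ W n} ∪ {z | ∃ n, z ∈ W n ∧ z ∈ B (sf f n)}
  have hB0X : ∀ f, B 0 ⊆ X f := by
    intro f z hz
    by_cases h : ∃ n, z ∈ W n
    · obtain ⟨n, hn⟩ := h
      exact Or.inr ⟨n, hn, hBmono (Nat.zero_le _) hz⟩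
    · push Not at h
      exact Or.inl ⟨hz, h⟩
  have hXW : ∀ f n z, z ∈ W n → (z ∈ X f ↔ z ∈ B (sf f n)) := by
    intro f n z hz
    constructor
    · rintro (⟨-, h⟩ | ⟨m, hm, h⟩)
      · exact absurd hz (h n)
      · rwa [hdisj hm hz] at h
    · intro h
      exact Or.inr ⟨n, hz, h⟩
  have hXout : ∀ f z, (∀ n, z ∉ W n) → (z ∈ X f ↔ z ∈ B 0) := by
    intro f z hz
    constructor
    · rintro (⟨h, -⟩ | ⟨m, hm, h⟩)
      · exact h
      · exact absurd hm (hz m)
    · intro h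
      exact Or.inl ⟨h, hz⟩
  have hXc : ∀ f, (X f).Countable := by
    intro f
    refine (countable_iUnion hBc).mono ?_
    rintro z (⟨h, -⟩ | ⟨m, hm, h⟩)
    · exact mem_iUnion.mpr ⟨0, h⟩
    · exact mem_iUnion.mpr ⟨_, h⟩
  -- the coding sets are closed
  have hXclo : ∀ f, ∀ γ < lam 0, Clo S univ γ (X f) := by
    intro f γ hγ F hF c _
    have hFX : (F : Set M) ⊆ X f := hF.trans inter_subset_left
    by_cases hc : ∃ n, c ∈ W n
    · obtain ⟨n, hn⟩ := hc
      have hγn : γ < lam (sf f n) := hγ.trans_le (hlmono.monotone (Nat.zero_le _))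
      obtain ⟨d, ⟨hdB, hdW⟩, hd⟩ := hBW (sf f n) γ hγn n (F.filter fun z => z ∈ W n) (by
        intro z hz
        rw [Finset.mem_coe, Finset.mem_filter] at hz
        exact ⟨(hXW f n z hz.2).mp (hFX hz.1), hz.2⟩) c hn
      refine ⟨d, ⟨(hXW f n d hdW).mpr hdB, mem_univ _⟩, ?_⟩
      have h2 := w3 n γ _ ((F : Set M) \ W n) (by
        rintro x (rfl | ⟨z, hz, rfl⟩)
        · exact ⟨hn, hdW⟩
        · rw [Finset.mem_coe, Finset.mem_filter] at hz
          exact ⟨hz.2, hz.2⟩) (fun g hg => hg.2) hd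
      refine BFR.anti ?_ h2
      rintro x (rfl | ⟨z, hz, rfl⟩)
      · exact Or.inl (Or.inl rfl)
      · by_cases hzW : z ∈ W n
        · refine Or.inl (Or.inr ⟨z, ?_, rfl⟩)
          rw [Finset.mem_coe, Finset.mem_filter]
          exact ⟨hz, hzW⟩
        · exact Or.inr ⟨z, ⟨hz, hzW⟩, rfl⟩
    · push Not at hc
      -- indices of the cells which meet F
      have hN₀ : {n | ∃ z ∈ F, z ∈ W n}.Finite := by
        have h2 : {n | ∃ z ∈ F, z ∈ W n} ⊆ ⋃ z ∈ F, {n | z ∈ W n} := by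
          rintro n ⟨z, hz, hzn⟩
          exact mem_iUnion₂.mpr ⟨z, hz, hzn⟩
        refine (Set.Finite.biUnion F.finite_toSet fun z _ => ?_).subset h2
        refine Set.Subsingleton.finite ?_
        intro m hm n hn
        exact hdisj hm hn
      let N₀ : Finset ℕ := hN₀.toFinset
      have hN₀' : ∀ n, n ∈ N₀ ↔ ∃ z ∈ F, z ∈ W n := by
        intro n
        rw [Set.Finite.mem_toFinset]
        rfl
      let F₀ : Finset M := F.filter fun z => ∀ n, z ∉ W n
      let F₁ : Finset M := F.filter fun z => ¬ ∀ n, z ∉ W n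
      have hsum : η + γ < lam 0 := hladd 0 _ (hηl 0) _ hγ
      obtain ⟨d, ⟨hdB, -⟩, hd⟩ := hBclo 0 _ hsum (F₀ ∪ N₀.biUnion D) (by
        intro z hz
        rw [Finset.mem_coe, Finset.mem_union] at hz
        refine ⟨?_, mem_univ _⟩
        rcases hz with hz | hz
        · rw [Finset.mem_filter] at hz
          exact (hXout f z hz.2).mp (hFX hz.1)
        · obtain ⟨n, hn, hz⟩ := Finset.mem_biUnion.mp hz
          exact hBD 0 n hz) c (mem_univ _)
      refine ⟨d, ⟨hB0X f hdB, mem_univ _⟩, ?_⟩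
      have hdW : ∀ n ∈ N₀, d ∉ W n := by
        intro n hn hdn
        refine hc n ((w1 n c d ?_).mpr hdn)
        refine BFR.anti ?_ (hd.mono le_self_add)
        rintro x (rfl | ⟨z, hz, rfl⟩)
        · exact Or.inl rfl
        · refine Or.inr ⟨z, ?_, rfl⟩
          rw [Finset.mem_coe, Finset.mem_union]
          exact Or.inr (Finset.mem_biUnion.mpr ⟨n, hn, hz⟩)
      have h2 := w4 N₀ γ c d (F₀ : Set M) (F₁ : Set M) F₀.finite_toSet F₁.finite_toSet (by
        intro n hn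
        refine ⟨hc n, hdW n hn, ?_⟩
        intro x hx
        rw [Finset.mem_coe, Finset.mem_filter] at hx
        exact hx.2 n) (by
        intro x hx
        rw [Finset.mem_coe, Finset.mem_filter] at hx
        obtain ⟨hxF, hx⟩ := hx
        push Not at hx
        obtain ⟨n, hn⟩ := hx
        exact ⟨n, (hN₀' n).mpr ⟨x, hxF, hn⟩, hn⟩) (by
        refine BFR.anti ?_ hd
        rintro x (rfl | ⟨z, hz, rfl⟩)
        · exact Or.inl rfl
        · refine Or.inr ⟨z, ?_, rfl⟩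
          rw [Finset.mem_coe, Finset.mem_union]
          rcases hz with hz | hz
          · exact Or.inl hz
          · obtain ⟨n, hn, hz⟩ := mem_iUnion₂.mp hz
            exact Or.inr (Finset.mem_biUnion.mpr ⟨n, hn, hz⟩))
      refine BFR.anti ?_ h2
      rintro x (rfl | ⟨z, hz, rfl⟩)
      · exact Or.inl rfl
      · refine Or.inr ⟨z, ?_, rfl⟩
        by_cases hzW : ∀ n, z ∉ W n
        · exact Or.inl (Finset.mem_coe.mpr (Finset.mem_filter.mpr ⟨hz, hzW⟩))
        · exact Or.inr (Finset.mem_coe.mpr (Finset.mem_filter.mpr ⟨hz, hzW⟩))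
  -- ranks in X f
  have hrX : ∀ f, ∀ u ∈ X f, ∀ v ∈ X f, (NT u v ↔ ¬ SLlt S (H M S u v ∩ X f) (lam 0)) :=
    fun f u hu v hv => rank_iff hS hη hH hρ₀ n1 n2 (hl1 0) (hladd 0) (hηl 0) (hωl 0) (hρl 0)
      (hXclo f) hu hv
  have hrcell : ∀ f n, ∀ u ∈ X f, ∀ v ∈ X f, u ∈ W n → v ∈ W n → NT u v →
      ¬ SLlt S (H M S u v ∩ X f) (lam (sf f n)) ∧
        SLlt S (H M S u v ∩ X f) (lam (sf f n + 1)) := by
    intro f n u hu v hv hun hvn hNT
    have hu' := (hXW f n u hun).mp hu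
    have hv' := (hXW f n v hvn).mp hv
    have heq : H M S u v ∩ X f = H M S u v ∩ B (sf f n) := by
      ext z
      constructor
      · rintro ⟨hz, hzX⟩
        exact ⟨hz, (hXW f n z (w2 n u hun v hvn hz)).mp hzX⟩
      · rintro ⟨hz, hzB⟩
        exact ⟨hz, (hXW f n z (w2 n u hun v hvn hz)).mpr hzB⟩
    rw [heq]
    exact ⟨(hrB _ u hu' v hv').mp hNT, hrk _ u hu' v hv'⟩
  have hrout : ∀ f, ∀ u ∈ X f, ∀ v ∈ X f, (∀ n, Disjoint (H M S u v) (W n)) →
      SLlt S (H M S u v ∩ X f) (lam 1) := by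
    intro f u hu v hv hdis
    have hout : ∀ z ∈ H M S u v, ∀ n, z ∉ W n := fun z hz n hzn =>
      Set.disjoint_left.mp (hdis n) hz hzn
    have hu' := (hXout f u (hout u (hmem u v).1)).mp hu
    have hv' := (hXout f v (hout v (hmem u v).2)).mp hv
    have heq : H M S u v ∩ X f = H M S u v ∩ B 0 := by
      ext z
      constructor
      · rintro ⟨hz, hzX⟩
        exact ⟨hz, (hXout f z (hout z hz)).mp hzX⟩
      · rintro ⟨hz, hzB⟩
        exact ⟨hz, (hXout f z (hout z hz)).mpr hzB⟩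
    rw [heq]
    exact hrk 0 u hu' v hv'
  -- the structures
  let T : (f : ℕ → Bool) → L.Structure (X f) := fun f => pl S (Subtype.val : X f → M)
  have hTη : ∀ f, BFR (T f) S univ univ η ∅ := fun f => pl_equiv_empty (hXclo f η (hηl 0))
  have hTr : ∀ f (u v : X f) l, SLlt (T f) (H (X f) (T f) u v) l ↔
      SLlt S (H M S u.1 v.1 ∩ X f) l := by
    intro f u v l
    unfold SLlt
    refine exists_congr fun α => and_congr_right fun _ => ?_
    have h2 := SL_pl (S := S) (e := (Subtype.val : X f → M)) Subtype.val_injective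
      (X := H (X f) (T f) u v) (α := α)
    rw [pl_hull hH (hXclo f η (hηl 0)) u v] at h2
    exact h2
  have hTm : ∀ f (u v z : X f), z ∈ H (X f) (T f) u v ↔ z.1 ∈ H M S u.1 v.1 := by
    intro f u v z
    have h2 := pl_hull hH (hXclo f η (hηl 0)) u v
    constructor
    · intro h
      have h3 : z.1 ∈ Subtype.val '' (H (X f) (T f) u v) := ⟨z, h, rfl⟩
      rw [h2] at h3
      exact h3.1
    · intro h
      have h3 : z.1 ∈ H M S u.1 v.1 ∩ X f := ⟨h, z.2⟩
      rw [← h2] at h3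
      obtain ⟨z', hz', he⟩ := h3
      rwa [Subtype.val_injective he] at hz'
  -- decoding
  have hdec : ∀ f k, Dk H lam k (T f) ↔ f k = true := by
    intro f k
    constructor
    · rintro ⟨u, v, huv, hk⟩
      rw [hTr, ← hrX f u.1 u.2 v.1 v.2] at huv
      obtain ⟨u', ⟨hu'X, hu'⟩, v', ⟨hv'X, hv'⟩, hNT', hcase⟩ := w5 (X f)
        (fun γ hγ => hXclo f γ (hγ.trans_lt (hηl 0))) (fun n => (hBD 0 n).trans (hB0X f))
        (fun n => ⟨hB0X f (hBab 0 n).1, hB0X f (hBab 0 n).2⟩) u.1 u.2 v.1 v.2 huv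
      have h2 := hk ⟨u', hu'X⟩ ((hTm f u v ⟨u', hu'X⟩).mpr hu') ⟨v', hv'X⟩
        ((hTm f u v ⟨v', hv'X⟩).mpr hv') (by
          rw [hTr]
          exact (hrX f u' hu'X v' hv'X).mp hNT')
      rw [hTr, hTr] at h2
      obtain ⟨h3, h4⟩ := h2
      rcases hcase with ⟨n, hu'n, hv'n⟩ | hdis
      · obtain ⟨h5, h6⟩ := hrcell f n u' hu'X v' hv'X hu'n hv'n hNT'
        have h7 : k + 1 < sf f n + 1 := by
          by_contra h
          push Not at h
          exact h3 (h6.mono (hlmono.monotone h))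
        have h8 : sf f n < k + 2 := by
          by_contra h
          push Not at h
          exact h5 (h4.mono (hlmono.monotone h))
        have h9 : sf f n = k + 1 := by omega
        by_cases hfn : f n = true
        · have h10 : sf f n = n + 1 := by simp [sf, hfn]
          have h11 : n = k := by omega
          rw [← h11]
          exact hfn
        · have h10 : sf f n = 0 := by simp [sf, hfn]
          omega
      · exfalso
        exact h3 ((hrout f u' hu'X v' hv'X hdis).mono (hlmono.monotone (by omega)))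
    · intro hfk
      have hsk : sf f k = k + 1 := by simp [sf, hfk]
      have hax : a k ∈ X f := hB0X f (hBab 0 k).1
      have hbx : b k ∈ X f := hB0X f (hBab 0 k).2
      refine ⟨⟨a k, hax⟩, ⟨b k, hbx⟩, ?_, ?_⟩
      · rw [hTr]
        exact (hrX f (a k) hax (b k) hbx).mp (hab k)
      · intro u' hu' v' hv' hn
        rw [hTm] at hu' hv'
        rw [hTr, ← hrX f u'.1 u'.2 v'.1 v'.2] at hn
        rw [hTr, hTr]
        have hu'W := w2 k (a k) (ha k) (b k) (hb k) hu'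
        have hv'W := w2 k (a k) (ha k) (b k) (hb k) hv'
        have h2 := hrcell f k u'.1 u'.2 v'.1 v'.2 hu'W hv'W hn
        rw [hsk] at h2
        exact h2
  -- the level of the decoding
  obtain ⟨L', hL'1, hL'⟩ := exists_bound hl1
  have hlω : ∀ n, ∀ α < lam n, α + Ordinal.omega0 < lam n := fun n α hα =>
    hladd n α hα _ (hωl n)
  refine hS.false_of_code (fun f => X f) T (fun f => (hXc f).to_subtype)
    (fun f => pl_equiv_empty (hXclo f δ (hδl 0))) (γ := η + L' + 1 + 1 + 1 + 1)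
    (add_one_lt_om1 (add_one_lt_om1 (add_one_lt_om1 (add_one_lt_om1 (add_lt_om1 hη hL'1)))))
    ?_
  intro f g hfg
  funext k
  have h2 : Dk H lam k (T f) → Dk H lam k (T g) :=
    dk_congr hH hl1 hlω hL' (hTη f) (hTη g) hfg k
  have hgf : BFR (T g) (T f) univ univ (η + L' + 1 + 1 + 1 + 1) ∅ :=
    hfg.symm fun a ha => absurd ha (notMem_empty a)
  have h3 : Dk H lam k (T g) → Dk H lam k (T f) :=
    dk_congr hH hl1 hlω hL' (hTη g) (hTη f) hgf k
  rw [hdec] at h2 h3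
  rw [hdec] at h2 h3
  cases hf : f k <;> cases hg : g k
  · rfl
  · exact absurd (h3 hg) (by simp [hf])
  · exact absurd (h2 hf) (by simp [hg])
  · rfl

end

end Pool.Agent.Helper97.LO
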